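import Pool.Agent.S09692

/-!
# A regular graph with two disjoint maximal cliques whose complement has none

The 27-regular graph `H` on 108 vertices: three triangles with vertices `(i, a)`, `i, a : Fin 3`, every
vertex `(i, a)` replaced by nine pairwise non-adjacent copies, and 27 further pairwise non-adjacent
vertices `f = (f 0, f 1, f 2)`, where `f` is joined to all copies of `(0, f 0)`, `(1, f 1)` and
`(2, f 2)`.  It is the complement of the graph `gr` of `Pool.Agent.S09692`, in which every two maximal
cliques meet.  One copy of the first triangle and one copy of the second triangle are disjoint maximal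
cliques of `H`.
-/

set_option autoImplicit false
open Pool.Agent.S09692

namespace Pool.Agent.Results.MP_7a760c_co.ComplementFails

/-- One copy of the triangle `i`. -/
def tri (i : Fin 3) : Set VV := {v | ∃ a : Fin 3, v = Sum.inl (i, a, 0)}

theorem compl_adj_iff (u v : VV) : grᶜ.Adj u v ↔ u ≠ v ∧ ¬ (ad u v = true) := Iff.rfl

theorem tri_maximal (i : Fin 3) : Maximal grᶜ.IsClique (tri i) := by
  refine ⟨?_, ?_⟩
  · rintro u ⟨a, rfl⟩ v ⟨b, rfl⟩ hne
    refine ⟨hne, ?_⟩
    have hab : a ≠ b := fun e => hne (by rw [e])
    change ¬ (ad _ _ = true)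
    simp [ad, hab]
  · intro t ht hle w hw
    by_contra hwt
    have hadj : ∀ a : Fin 3, ¬ (ad w (Sum.inl (i, a, 0)) = true) ∧ w ≠ Sum.inl (i, a, 0) := by
      intro a
      have hne : w ≠ Sum.inl (i, a, 0) := fun e => hwt ⟨a, e⟩
      exact ⟨(ht hw (hle ⟨a, rfl⟩) hne).2, hne⟩
    rcases w with ⟨j, b, y⟩ | f
    · have h := hadj b
      apply h.1
      simp only [ad, ne_eq, Bool.and_eq_true, decide_eq_true_eq]
      refine ⟨?_, ?_⟩
      · simpa using h.2
      · simp
    · have h := (hadj (if get f i = 0 then 1 else 0)).1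
      apply h
      simp only [ad, decide_eq_true_eq]
      intro e
      by_cases h0 : get f i = 0
      · rw [if_pos h0, h0] at e
        exact absurd e (by decide)
      · rw [if_neg h0] at e
        exact h0 e

theorem tri_disjoint : Disjoint (tri 0) (tri 1) := by
  rw [Set.disjoint_left]
  rintro v ⟨a, rfl⟩ ⟨b, e⟩
  simp only [Sum.inl.injEq, Prod.mk.injEq] at e
  exact absurd e.1 (by decide)

theorem meet (s t : Set VV) (hs : Maximal gr.IsClique s) (ht : Maximal gr.IsClique t) :
    (s ∩ t).Nonempty := by
  obtain ⟨p, hp⟩ := clique_col s hs.prop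
  obtain ⟨q, hq⟩ := clique_col t ht.prop
  choose c hc using fun i => avoid (p i) (q i)
  have hget : ∀ i, get (c 0, c 1, c 2) i = c i := by
    intro i
    fin_cases i <;> rfl
  exact ⟨_, mem_of_avoid s hs p hp (c 0, c 1, c 2) (fun i => by rw [hget]; exact (hc i).1),
    mem_of_avoid t ht q hq (c 0, c 1, c 2) (fun i => by rw [hget]; exact (hc i).2)⟩

/-- There is a regular graph on 108 vertices (of degree 27) with two disjoint maximal cliques such that
any two maximal independent sets (maximal cliques of the complement) share a vertex. -/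
theorem result :
    ∃ (V : Type) (_ : Fintype V) (_ : DecidableEq V) (G : SimpleGraph V) (_ : DecidableRel G.Adj),
      Fintype.card V = 108 ∧ G.IsRegularOfDegree 27 ∧ G ≠ ⊥ ∧
      (∃ s t : Set V, Maximal G.IsClique s ∧ Maximal G.IsClique t ∧ Disjoint s t) ∧
      (∀ s t : Set V, Maximal Gᶜ.IsClique s → Maximal Gᶜ.IsClique t → (s ∩ t).Nonempty) ∧
      (∀ s t : Set V, Maximal G.IsIndepSet s → Maximal G.IsIndepSet t → (s ∩ t).Nonempty) := by
  refine ⟨VV, inferInstance, inferInstance, grᶜ, inferInstance, by decide +kernel, ?_, ?_,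
    ⟨tri 0, tri 1, tri_maximal 0, tri_maximal 1, tri_disjoint⟩, ?_, ?_⟩
  · intro v
    rw [SimpleGraph.degree_compl, regular v]
    decide +kernel
  · intro e
    have h : grᶜ.Adj (Sum.inl (0, 0, 0)) (Sum.inl (0, 1, 0)) := by
      refine ⟨by simp, ?_⟩
      change ¬ (ad _ _ = true)
      simp [ad]
    rw [e] at h
    exact h
  · intro s t hs ht
    rw [compl_compl] at hs ht
    exact meet s t hs ht
  · intro s t hs ht
    have key : ∀ u : Set VV, Maximal (grᶜ).IsIndepSet u → Maximal gr.IsClique u := by
      intro u hu
      refine ⟨?_, ?_⟩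
      · have := hu.prop
        rwa [← SimpleGraph.isClique_compl, compl_compl] at this
      · intro w hw hle
        apply hu.le_of_ge _ hle
        rwa [← SimpleGraph.isClique_compl, compl_compl]
    exact meet s t (key s hs) (key t ht)

end Pool.Agent.Results.MP_7a760c_co.ComplementFails
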